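import Pool.Agent.Results.MP_94b6b1_an.NoHeat
import Pool.Agent.Run7.h664.FH.FTV
import Pool.Agent.Run7.h986.TF.Crit

/-!
# MP_94b6b1_an, Q2: Thompson's groups `F`, `T` and `V` do not have the heat property

`Run7.h664.FH.F`, `T`, `V` (`Pool/Agent/Run7/h664/FH/FTV.lean`) are Thompson's groups, acting on
Cantor space `C = {0, 1} ^ ℕ`: `V` consists of the bijections of `C` which act near every point by the
replacement of a prefix, `F` and `T` consist of the elements of `V` which preserve the lexicographic
order and the cyclic order of `C`, respectively.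

The heat property is defined as in the starting result `NoHeat`, which answers Q1 by an amenable
group.

The proof is by a criterion (second part of the theorem): a group does not have the heat property if it
contains a subgroup `Q`, an element `x ≠ x⁻¹` of `Q` and elements `g0`, `g1` such that the conjugates of
`Q` by `g0` and by `g1` are contained in `Q`, commute elementwise and meet only in `1`. In `F` take
for `Q` the elements which are supported in the cone `01`, whose conjugates by `g0` and `g1` are
supported in the cones `010` and `011`.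

Proof of the criterion. Let `I_0 = {x, x⁻¹}` and let `I_(k+1)` consist of the products
`(g0 a g0⁻¹) (g1 b g1⁻¹)` with `a`, `b` in `I_k`; it is closed under inverses and has `2 ^ (2 ^ (k+1))`
elements. If `d` is negative definite then `d (a b) + d (a⁻¹ b) ≤ 2 d a + 2 d b` for commuting `a` and
`b`, and `√d` is subadditive; so the mean of `d` over `I_k` is at most `K 2 ^ k`. On the other hand,
there are signs such that the norm of the signed sum over `I_k` is at most `√8 ^ (2 ^ (k-1))`, while
positive combinations of the elements of `I_k` have the greatest possible norm, as they commute. By the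
theorem of Banach and Steinhaus (starting library), the heat property forces the mean of `d` over
`I_k` to be at least `(c 2 ^ k - C_t) / t`, for every `t > 0`, a contradiction for small `t`.
-/

set_option autoImplicit false

namespace Pool.Agent.Results.MP_94b6b1_an.ThompsonGroups

open Pool.Agent.Results.MP_94b6b1_an.NoHeat (Heat heat_imp)

/-- (1) Thompson's groups `F`, `T` and `V` do not have the heat property. (2) Criterion. -/
theorem result :
    (¬ Heat Run7.h664.FH.F ∧ ¬ Heat Run7.h664.FH.T ∧ ¬ Heat Run7.h664.FH.V) ∧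
    ∀ (G : Type) [Group G] (Q : Subgroup G) (x g0 g1 : G), x ∈ Q → x⁻¹ ≠ x →
      (∀ q ∈ Q, g0 * q * g0⁻¹ ∈ Q) → (∀ q ∈ Q, g1 * q * g1⁻¹ ∈ Q) →
      (∀ q ∈ Q, ∀ r ∈ Q,
        (g0 * q * g0⁻¹) * (g1 * r * g1⁻¹) = (g1 * r * g1⁻¹) * (g0 * q * g0⁻¹)) →
      (∀ q ∈ Q, ∀ r ∈ Q, g0 * q * g0⁻¹ = g1 * r * g1⁻¹ → q = 1) → ¬ Heat G := by
  have hC : Run7.h664.FH.S_CRIT := fun G _ Q x g0 g1 hx hx2 h0 h1 hc hi =>
    Pool.Agent.Run7.h986.TF.not_heat_of G Q x g0 g1 hx hx2 h0 h1 hc hi
  refine ⟨⟨fun h => ?_, fun h => ?_, fun h => ?_⟩, ?_⟩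
  · exact Run7.h664.FH.no_heat_of hC _ le_rfl (heat_imp h)
  · exact Run7.h664.FH.no_heat_of hC _ Run7.h664.FH.F_le_T (heat_imp h)
  · exact Run7.h664.FH.no_heat_of hC _
      (Run7.h664.FH.F_le_T.trans Run7.h664.FH.T_le_V) (heat_imp h)
  · intro G _ Q x g0 g1 hx hx2 h0 h1 hc hi h
    exact hC G Q x g0 g1 hx hx2 h0 h1 hc hi (heat_imp h)

end Pool.Agent.Results.MP_94b6b1_an.ThompsonGroups
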